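import Pool.Agent.Helper93.LVL.Lo
import Pool.Agent.Helper50.BLD.Imq
import Pool.Agent.Helper59.EV.Fdg

/-! ROWS ON EVENTS: full rows stay full rows on every event of positive mass of every extension. -/

set_option autoImplicit false

namespace Pool.Agent.Helper93.LVL

open Finset Filter Topology Matrix Metric Pool.Agent.Helper69.RK Pool.Agent.Helper31.EC Pool.Agent.Helper31.EC.Sp
open Pool.Agent.Helper95.LF (PdM)
open Pool.Agent.Helper95.LF (dv_add)
open Pool.Agent.Helper40.EL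
open Pool.Agent.Helper3.LF Pool.Agent.Helper84.MT
open Pool.Agent.Helper89.LX (dot_self_nonneg sum_mul_le Sub_pow')
open Pool.Agent.Helper76.ADP (RowsF RowsK exists_K rmx node_near var_cell sub_congr)
open Pool.Agent.Helper76.THK (cnt_fc)
open Pool.Agent.Helper76.PUR (cJ)

noncomputable section

variable {S T : Sp} {M v q D : ℕ}

/-- COUNTING over the rows, no fullness -/
theorem cnt_rows0 (hvq : v + q = M) (hD : 1 ≤ D) {V : ∀ k, Setoid (S.F k).Ω} {Q : S.VV M}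
    {E : ∀ k, (S.F k).Ω → (Fin v ⊕ Fin q ≃ Fin M)} {f : ∀ k, (S.F k).Ω → Fin q → MvPolynomial (Fin M) ℝ}
    {w : ∀ k, (S.F k).Ω → Fin q → ℝ} {K : ℕ → ℝ} {A : ∀ k, (S.F k).Ω → Prop}
    (w01 : ∀ᶠ k in UF, ∀ ω, (S.F k).μ ω ≠ 0 → ∀ j, 0 ≤ w k ω j ∧ w k ω j ≤ 1)
    (deg : ∀ᶠ k in UF, ∀ ω, (S.F k).μ ω ≠ 0 → ∀ j, (f k ω j).totalDegree ≤ D)
    (msf : ∀ᶠ k in UF, ∀ ω ω', (S.F k).μ ω ≠ 0 → (S.F k).μ ω' ≠ 0 → (S.F k).Z ω ω' → V k ω ω' → f k ω = f k ω')
    (y : RowsK V Q D E f w K A) {ε : ℝ} (hε : 0 < ε) :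
    ∀ᶠ k in UF, (S.F k).e (Setoid.ker (Q.cellv 1 k)) (V k ⊓ (S.F k).Z) +
      (S.F k).n * ∑ ω, (S.F k).μ ω * ∑ j, w k ω j ≤ (M + ε) * (S.F k).n := by
  have hK2 : S.Sub (fun k => (K k) ^ (2 * v) * cD q (K k) ^ q) := (Sub_pow' y.subK (2 * v)).mul (sub_cD y.subK)
  have h1 := cnt_fc (S := S) (M := M) (D := D) hD Q zero_le_one V
    (fun k ω => Bb D (K k)⁻¹ (f k ω) 0)
    (Eventually.of_forall fun k ω _ => ⟨Brg_symm _ _ _, fun v => Brg_one _ _ _ v⟩) (by
      filter_upwards [msf] with k hk ω ω' h h' hZ hW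
      have e1 := hk ω ω' h h' hZ hW
      show Bb D (K k)⁻¹ (f k ω) 0 = Bb D (K k)⁻¹ (f k ω') 0
      rw [e1]) A y.tA (fun k => szb M D q (K k) + (K k) ^ (2 * v) * cD q (K k) ^ q) ((sub_szb y.subK).add hK2)
    (fun k ω => ∑ j, w k ω j) (by
      filter_upwards [w01] with k hk ω hω
      have h1 := hk ω hω
      have h4 : ∑ j, w k ω j ≤ q := by
        refine (Finset.sum_le_card_nsmul _ _ 1 fun j _ => (h1 j).2).trans (le_of_eq ?_)
        rw [Finset.card_univ, Fintype.card_fin, nsmul_eq_mul, mul_one]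
      have h5 : 0 ≤ ∑ j, w k ω j := Finset.sum_nonneg fun j _ => (h1 j).1
      have h8 : (M : ℝ) = v + q := by
        rw [← hvq]
        push_cast
        ring
      rw [mul_one, h8]
      have h9 : (0 : ℝ) ≤ v := Nat.cast_nonneg v
      constructor <;> linarith) (by
      filter_upwards [w01, deg, y.qb, y.bd, y.der] with k hw hdg hq hbd hder ω hω hA
      have hK1 := y.K1 k
      have hK0 : 0 < K k := by linarith
      have hc : 0 ≤ (K k) ^ (2 * v) * cD q (K k) ^ q := by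
        have := cD_one q (K k)
        positivity
      have hr1 : S.dl 1 k ≤ 1 := (S.dl_anti zero_le_one k).trans (S.dl_zero k).le
      have hi1 : (K k)⁻¹ ≤ 1 := inv_le_one_of_one_le₀ hK1
      refine le_trans (Bb_phi hD (f k ω) (hdg ω hω) 0 (S.dl_pos 1 k) hr1 (Q.v k ω) hK1 (hq ω hω)
        (hbd ω hω hA) ?_ (inv_pos.mpr hK0) ?_ ?_) (le_add_of_nonneg_right hc)
      · intro z hz j a
        have h2 := hder ω hω hA z hz j a
        have h3 : S.dl 1 k * (K k * 2 ^ (w k ω j * (S.F k).n)) ≤ K k := by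
          have h4 : S.dl 1 k * 2 ^ (w k ω j * (S.F k).n) ≤ 1 := by
            unfold Sp.dl
            rw [← Real.rpow_add (by norm_num)]
            apply Real.rpow_le_one_of_one_le_of_nonpos (by norm_num)
            have h5 := (hw ω hω j).2
            have h6 := (S.F k).pos
            nlinarith
          calc S.dl 1 k * (K k * 2 ^ (w k ω j * (S.F k).n)) = K k * (S.dl 1 k * 2 ^ (w k ω j * (S.F k).n)) := by ring
            _ ≤ K k * 1 := mul_le_mul_of_nonneg_left h4 (by linarith)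
            _ = K k := mul_one _
        exact (mul_le_mul_of_nonneg_left h2 (S.dl_pos 1 k).le).trans h3
      · calc (K k)⁻¹ * S.dl 1 k ≤ 1 * 1 := mul_le_mul hi1 hr1 (S.dl_pos 1 k).le zero_le_one
          _ = 1 := mul_one 1
      · intro i
        rw [inv_mul_le_iff₀ hK0, mul_one, Pi.zero_apply, sub_zero]
        exact hq ω hω i) (by
      filter_upwards [w01, deg, y.der, y.det] with k hw hdg hder hdet ω hω hA
      have hK1 := y.K1 k
      have hK0 : 0 < K k := by linarith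
      have hn := (S.F k).pos
      have h2 := Bb_GQ (D := D) hvq hD (E k ω) (f k ω) (hdg ω hω) 0 (S.dl 1 k) (Q.v k ω) hK1
        (fun j => 2 ^ (w k ω j * (S.F k).n)) (fun j => by positivity) (fun j a => hder ω hω hA (Q.v k ω) (fun i => by
          rw [sub_self, abs_zero]
          exact (S.dl_pos 1 k).le) j a) (by
          rw [← Real.rpow_sum_of_pos (by norm_num), ← Finset.sum_mul]
          exact hdet ω hω hA) (inv_pos.mpr hK0)
      have hG : 0 ≤ GQ (S.dl 1 k) (Bb D (K k)⁻¹ (f k ω) 0) (Q.v k ω) :=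
        zero_le_one.trans (one_le_GQ (S.dl 1 k) (Brg_symm _ _ _) (Brg_nn _ _ _) (Q.v k ω))
      have e1 : ∏ j, max (K k)⁻¹ ((2 : ℝ) ^ (w k ω j * (S.F k).n)) ^ 2 = 2 ^ (2 * (∑ j, w k ω j) * (S.F k).n) := by
        have h3 : ∀ j, max (K k)⁻¹ ((2 : ℝ) ^ (w k ω j * (S.F k).n)) ^ 2 = 2 ^ (2 * w k ω j * (S.F k).n) := by
          intro j
          have h4 : (1 : ℝ) ≤ 2 ^ (w k ω j * (S.F k).n) :=
            Real.one_le_rpow (by norm_num) (mul_nonneg (hw ω hω j).1 hn.le)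
          rw [max_eq_right ((inv_le_one_of_one_le₀ hK1).trans h4), ← Real.rpow_natCast, ← Real.rpow_mul (by norm_num)]
          congr 1
          push_cast
          ring
        rw [Finset.prod_congr rfl fun j _ => h3 j, ← Real.rpow_sum_of_pos (by norm_num), ← Finset.sum_mul, Finset.mul_sum]
      rw [e1] at h2
      have h3 : (2 : ℝ) ^ (2 * (∑ j, w k ω j) * (S.F k).n) ≤ ((K k) ^ (2 * v) * cD q (K k) ^ q) *
          GQ (S.dl 1 k) (Bb D (K k)⁻¹ (f k ω) 0) (Q.v k ω) := by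
        have h5 := mul_le_mul_of_nonneg_left h2 (pow_nonneg hK0.le (2 * v))
        rw [← mul_assoc, ← mul_pow, mul_inv_cancel₀ hK0.ne', one_pow, one_mul, ← mul_assoc] at h5
        exact h5
      have hs : 0 ≤ szb M D q (K k) := by
        have h0 := nn_one M D
        have hn0 : (0 : ℝ) ≤ nn M D := by linarith
        have hk0 : 0 ≤ K k + 1 := by linarith
        unfold szb
        positivity
      refine h3.trans (mul_le_mul_of_nonneg_right ?_ hG)
      linarith) hε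
  filter_upwards [h1] with k hk
  rw [mul_one] at hk
  exact hk

variable {V : ∀ k, Setoid (S.F k).Ω} {Q : S.VV M} {E : ∀ k, (S.F k).Ω → (Fin v ⊕ Fin q ≃ Fin M)}
    {f : ∀ k, (S.F k).Ω → Fin q → MvPolynomial (Fin M) ℝ} {w : ∀ k, (S.F k).Ω → Fin q → ℝ} {K : ℕ → ℝ}
    {A : ∀ k, (S.F k).Ω → Prop}

/-- one tame constant, on events -/
theorem rowsK_im (y : RowsK V Q D E f w K A) (p : Pj T S) (B : ∀ k, (T.F k).Ω → Prop) (hB : 0 < ul (T.pr B)) :
    RowsK (S := Sp.im p B) V (Q.im p B) D E f w K A where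
  K1 := y.K1
  subK := y.subK
  tA := Pool.Agent.Helper50.BLD.typ_im p B hB y.tA
  qb := by filter_upwards [y.qb] with k hk ω hω using hk ω (FSp.im_supp (p.fp k) (B k) ω hω)
  bd := by filter_upwards [y.bd] with k hk ω hω using hk ω (FSp.im_supp (p.fp k) (B k) ω hω)
  der := by filter_upwards [y.der] with k hk ω hω using hk ω (FSp.im_supp (p.fp k) (B k) ω hω)
  det := by filter_upwards [y.det] with k hk ω hω using hk ω (FSp.im_supp (p.fp k) (B k) ω hω)

/-- entropies over the event and over the complement -/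
theorem e_im_le {F G : FSp} (p : FPj G F) (B : G.Ω → Prop) (X Y : Setoid F.Ω) :
    F.e X (Y ⊓ F.Z) ≤ G.pb B * (FSp.im p B).e X (Y ⊓ F.Z) +
      (1 - G.pb B) * (FSp.im p (fun ω => ¬ B ω)).e X (Y ⊓ F.Z) + 1 := by
  have h1 := (G.h_rsplit B (p.map (fc X)) (p.map (fc Y))).2
  have key : ∀ B : G.Ω → Prop, h (G.rmap B (p.map (fc X))) (G.rmap B (p.map (fc Y))) =
      (FSp.im p B).e X (Y ⊓ F.Z) := by
    intro B
    rw [← FSp.imp_imap, ← FSp.imp_imap, (FSp.imp p B).h_map]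
    exact h_fc (F := FSp.im p B) X Y
  rw [key, key, p.h_map, h_fc] at h1
  exact h1

/-- means over the event and over the complement -/
theorem sum_im {F G : FSp} (p : FPj G F) (B : G.Ω → Prop) (g : F.Ω → ℝ) :
    ∑ ω, F.μ ω * g ω = G.pb B * (∑ ω, (FSp.im p B).μ ω * g ω) +
      (1 - G.pb B) * ∑ ω, (FSp.im p (fun ω => ¬ B ω)).μ ω * g ω := by
  rw [← Pool.Agent.Helper59.EV.sum_pull p g, Pool.Agent.Helper59.EV.sum_rest G B]
  have key : ∀ B : G.Ω → Prop, ∑ ω, (FSp.im p B).μ ω * g ω = ∑ ω, (G.rest B).μ ω * g (p.π ω) := fun B =>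
    (Pool.Agent.Helper59.EV.sum_pull (FSp.imp p B) g).symm
  rw [key, key]

/-- a crude bound of the entropies of the cells -/
theorem cell_crude (Q : S.VV M) (p : Pj T S) (B : ∀ k, (T.F k).Ω → Prop) : ∃ C : ℝ, 0 ≤ C ∧ ∀ᶠ k in UF,
    ∀ Y : Setoid (S.F k).Ω, (FSp.im (p.fp k) (B k)).e (Setoid.ker (Q.cellv 1 k)) (Y ⊓ (S.F k).Z) ≤ C * (S.F k).n := by
  have h1 := (Sp.im_VB p B (Q.bdd 1)).ub
  obtain ⟨C, hC⟩ := h1
  refine ⟨max C 0, le_max_right _ _, ?_⟩
  filter_upwards [hC] with k hk Y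
  have hn := (S.F k).pos
  have h2 : (FSp.im (p.fp k) (B k)).e (Setoid.ker (Q.cellv 1 k)) (⊤ ⊓ (S.F k).Z) / (S.F k).n ≤ C := by
    refine le_trans (le_abs_self _) (le_trans (le_of_eq ?_) hk)
    rfl
  rw [div_le_iff₀ hn] at h2
  have h3 := (FSp.im (p.fp k) (B k)).e_anti (A := Setoid.ker (Q.cellv 1 k)) (B := ⊤ ⊓ (S.F k).Z) (C := Y ⊓ (S.F k).Z)
    (fun ω ω' _ _ h => ⟨trivial, h.2⟩)
  exact (h3.trans h2).trans (mul_le_mul_of_nonneg_right (le_max_left _ _) hn.le)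

/-- FULLNESS ON EVENTS -/
theorem fu_im (hvq : v + q = M) (hD : 1 ≤ D) (x : RowsF V Q D E f w) (p : Pj T S) (B : ∀ k, (T.F k).Ω → Prop)
    (hB : 0 < ul (T.pr B)) (ε : ℝ) (hε : 0 < ε) : ∀ᶠ k in UF, (M - ε) * (S.F k).n ≤
    (FSp.im (p.fp k) (B k)).e (Setoid.ker (Q.cellv 1 k)) (V k ⊓ (S.F k).Z) +
      (S.F k).n * ∑ ω, (FSp.im (p.fp k) (B k)).μ ω * ∑ j, w k ω j := by
  obtain ⟨K, A, y⟩ := exists_K x
  set p0 : ℝ := ul (T.pr B) with hp0
  have hl := ul_tendsto (Sp.UB_pr B)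
  have hp0' : 0 < p0 / 2 := by linarith
  -- the complement
  have hc : ∀ δ : ℝ, 0 < δ → ∀ᶠ k in UF, (1 - T.pr B k) *
      ((FSp.im (p.fp k) (fun ω => ¬ B k ω)).e (Setoid.ker (Q.cellv 1 k)) (V k ⊓ (S.F k).Z) +
        (S.F k).n * ∑ ω, (FSp.im (p.fp k) (fun ω => ¬ B k ω)).μ ω * ∑ j, w k ω j) ≤
      (1 - T.pr B k) * (M * (S.F k).n) + δ * (S.F k).n := by
    intro δ hδ
    have hprn : ∀ k, T.pr (fun k ω => ¬ B k ω) k = 1 - T.pr B k := fun k => by
      have := (T.F k).pb_add_compl (B k)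
      show (T.F k).pb (fun ω => ¬ B k ω) = 1 - (T.F k).pb (B k)
      linarith
    by_cases hB' : 0 < ul (T.pr fun k ω => ¬ B k ω)
    · have h1 := cnt_rows0 (S := Sp.im p fun k ω => ¬ B k ω) hvq hD (V := V) (Q := Q.im p fun k ω => ¬ B k ω) (E := E)
        (f := f) (w := w) (K := K) (A := A) (by
        filter_upwards [x.w01] with k hk ω hω using hk ω (FSp.im_supp (p.fp k) _ ω hω)) (by
        filter_upwards [x.deg] with k hk ω hω using hk ω (FSp.im_supp (p.fp k) _ ω hω)) (by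
        filter_upwards [x.msf] with k hk ω ω' hω hω' using
          hk ω ω' (FSp.im_supp (p.fp k) _ ω hω) (FSp.im_supp (p.fp k) _ ω' hω')) (rowsK_im y p _ hB') hδ
      filter_upwards [h1] with k hk
      have h2 : (FSp.im (p.fp k) (fun ω => ¬ B k ω)).e (Setoid.ker (Q.cellv 1 k)) (V k ⊓ (S.F k).Z) +
        (S.F k).n * ∑ ω, (FSp.im (p.fp k) (fun ω => ¬ B k ω)).μ ω * ∑ j, w k ω j ≤ (M + δ) * (S.F k).n := hk
      have h3 : 0 ≤ 1 - T.pr B k := sub_nonneg.mpr (pr_le_one B k)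
      have h4 : 0 ≤ T.pr B k := pr_nonneg B k
      have h5 := mul_le_mul_of_nonneg_left h2 h3
      have h6 : 0 ≤ T.pr B k * (δ * (S.F k).n) := mul_nonneg h4 (mul_nonneg hδ.le (S.F k).pos.le)
      linarith
    · obtain ⟨C, hC0, hC⟩ := cell_crude Q p fun k ω => ¬ B k ω
      have h0 : ul (T.pr fun k ω => ¬ B k ω) = 0 := by
        have h1 := ul_mono (UB_const 0) (Sp.UB_pr fun k ω => ¬ B k ω) (Eventually.of_forall fun k => pr_nonneg _ k)
        rw [ul_const] at h1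
        exact le_antisymm (not_lt.mp hB') h1
      have h1 : Tendsto (fun k => (1 - T.pr B k) * (C + q)) UF (𝓝 (0 * (C + q))) := by
        have h2 := ul_tendsto (Sp.UB_pr fun k ω => ¬ B k ω)
        rw [h0] at h2
        refine (h2.congr fun k => hprn k).mul_const _
      rw [zero_mul] at h1
      filter_upwards [h1.eventually (gt_mem_nhds hδ), hC, x.w01] with k a b c
      have hn := (S.F k).pos
      have h3 : 0 ≤ 1 - T.pr B k := sub_nonneg.mpr (pr_le_one B k)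
      have h4 := b (V k)
      have h5 : ∑ ω, (FSp.im (p.fp k) (fun ω => ¬ B k ω)).μ ω * ∑ j, w k ω j ≤ q := by
        have h6 : ∀ ω ∈ (Finset.univ : Finset (S.F k).Ω), (FSp.im (p.fp k) (fun ω => ¬ B k ω)).μ ω * ∑ j, w k ω j ≤
            (FSp.im (p.fp k) (fun ω => ¬ B k ω)).μ ω * q := by
          intro ω _
          by_cases h7 : (FSp.im (p.fp k) (fun ω => ¬ B k ω)).μ ω = 0
          · rw [h7, zero_mul, zero_mul]
          · refine mul_le_mul_of_nonneg_left ?_ ((FSp.im (p.fp k) (fun ω => ¬ B k ω)).nn ω)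
            have h8 := c ω (FSp.im_supp (p.fp k) _ ω h7)
            refine (Finset.sum_le_card_nsmul _ _ 1 fun j _ => (h8 j).2).trans (le_of_eq ?_)
            rw [Finset.card_univ, Fintype.card_fin, nsmul_eq_mul, mul_one]
        have h9 : ∑ ω, (FSp.im (p.fp k) (fun ω => ¬ B k ω)).μ ω = 1 := (FSp.im (p.fp k) (fun ω => ¬ B k ω)).ms
        have h9' : (∑ ω, (FSp.im (p.fp k) (fun ω => ¬ B k ω)).μ ω) * (q : ℝ) = q := by rw [h9, one_mul]
        exact (Finset.sum_le_sum h6).trans (((Finset.sum_mul _ _ _).symm.trans h9').le)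
      have h10 : (FSp.im (p.fp k) (fun ω => ¬ B k ω)).e (Setoid.ker (Q.cellv 1 k)) (V k ⊓ (S.F k).Z) +
          (S.F k).n * ∑ ω, (FSp.im (p.fp k) (fun ω => ¬ B k ω)).μ ω * ∑ j, w k ω j ≤ (C + q) * (S.F k).n := by
        have := mul_le_mul_of_nonneg_left h5 hn.le
        linarith
      have h11 := mul_le_mul_of_nonneg_left h10 h3
      have h12 : 0 ≤ (1 - T.pr B k) * (M * (S.F k).n) := mul_nonneg h3 (by positivity)
      have h13 : (1 - T.pr B k) * ((C + q) * (S.F k).n) ≤ δ * (S.F k).n := by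
        rw [← mul_assoc]
        exact mul_le_mul_of_nonneg_right a.le hn.le
      linarith
  set δ : ℝ := ε * (p0 / 2) / 3 with hδ
  have hδ0 : 0 < δ := by positivity
  have hn1 : ∀ᶠ k in UF, 1 ≤ δ * (S.F k).n := by
    have h1 : Tendsto (fun k => δ * (S.F k).n) UF atTop := (S.lim).const_mul_atTop hδ0
    exact h1.eventually (eventually_ge_atTop 1)
  filter_upwards [hc δ hδ0, x.fu δ hδ0, hl.eventually (lt_mem_nhds (show p0 / 2 < p0 by linarith)), hn1] with k h1 h2 h3 h4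
  have hn := (S.F k).pos
  have h5 := e_im_le (p.fp k) (B k) (Setoid.ker (Q.cellv 1 k)) (V k)
  have h6 := sum_im (p.fp k) (B k) fun ω => ∑ j, w k ω j
  have e1 : (T.F k).pb (B k) = T.pr B k := rfl
  rw [e1] at h5 h6
  have hP : p0 / 2 < T.pr B k := h3
  set P := T.pr B k with hPd
  set X := (FSp.im (p.fp k) (B k)).e (Setoid.ker (Q.cellv 1 k)) (V k ⊓ (S.F k).Z) with hX
  set X' := (FSp.im (p.fp k) (fun ω => ¬ B k ω)).e (Setoid.ker (Q.cellv 1 k)) (V k ⊓ (S.F k).Z) with hX'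
  set Y := ∑ ω, (FSp.im (p.fp k) (B k)).μ ω * ∑ j, w k ω j with hY
  set Y' := ∑ ω, (FSp.im (p.fp k) (fun ω => ¬ B k ω)).μ ω * ∑ j, w k ω j with hY'
  have h5' : (S.F k).e (Setoid.ker (Q.cellv 1 k)) (V k ⊓ (S.F k).Z) ≤ P * X + (1 - P) * X' + 1 := h5
  have h6' : ∑ ω, (S.F k).μ ω * ∑ j, w k ω j = P * Y + (1 - P) * Y' := h6
  have h7 : (S.F k).n * ∑ ω, (S.F k).μ ω * ∑ j, w k ω j = P * ((S.F k).n * Y) + (1 - P) * ((S.F k).n * Y') := by
    rw [h6']
    ring
  rw [h7] at h2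
  have h8 : (M - δ) * (S.F k).n ≤ P * (X + (S.F k).n * Y) + (1 - P) * (X' + (S.F k).n * Y') + 1 := by linarith
  have h1' : (1 - P) * (X' + (S.F k).n * Y') ≤ (1 - P) * (M * (S.F k).n) + δ * (S.F k).n := h1
  have h9 : P * (M * (S.F k).n) - 3 * (δ * (S.F k).n) ≤ P * (X + (S.F k).n * Y) := by linarith
  have h10 : 3 * (δ * (S.F k).n) ≤ P * (ε * (S.F k).n) := by
    have h11 : 3 * (δ * (S.F k).n) = p0 / 2 * (ε * (S.F k).n) := by
      rw [hδ]
      ring
    rw [h11]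
    exact mul_le_mul_of_nonneg_right hP.le (by positivity)
  have h12 : P * ((M - ε) * (S.F k).n) ≤ P * (X + (S.F k).n * Y) := by linarith
  exact le_of_mul_le_mul_left h12 (hp0'.trans hP)

/-- **ROWS ON EVENTS** -/
theorem rowsF_im (hvq : v + q = M) (hD : 1 ≤ D) (x : RowsF V Q D E f w) (p : Pj T S) (B : ∀ k, (T.F k).Ω → Prop)
    (hB : 0 < ul (T.pr B)) : RowsF (S := Sp.im p B) V (Q.im p B) D E f w where
  w01 := by filter_upwards [x.w01] with k hk ω hω using hk ω (FSp.im_supp (p.fp k) _ ω hω)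
  deg := by filter_upwards [x.deg] with k hk ω hω using hk ω (FSp.im_supp (p.fp k) _ ω hω)
  msE := by
    filter_upwards [x.msE] with k hk ω ω' hω hω'
    exact hk ω ω' (FSp.im_supp (p.fp k) _ ω hω) (FSp.im_supp (p.fp k) _ ω' hω')
  msf := by
    filter_upwards [x.msf] with k hk ω ω' hω hω'
    exact hk ω ω' (FSp.im_supp (p.fp k) _ ω hω) (FSp.im_supp (p.fp k) _ ω' hω')
  msw := by
    filter_upwards [x.msw] with k hk ω ω' hω hω'
    exact hk ω ω' (FSp.im_supp (p.fp k) _ ω hω) (FSp.im_supp (p.fp k) _ ω' hω')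
  bd := fun η hη => Pool.Agent.Helper50.BLD.typ_im p B hB (x.bd η hη)
  der := fun η hη => Pool.Agent.Helper50.BLD.typ_im p B hB (x.der η hη)
  det := fun η hη => Pool.Agent.Helper50.BLD.typ_im p B hB (x.det η hη)
  fu := fun ε hε => fu_im hvq hD x p B hB ε hε

end

end Pool.Agent.Helper93.LVL
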