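import Pool.Agent.Helper93.LVL.Frm
import Pool.Agent.Helper76.ADP.Adg

/-! LEVELS, lower part: if the point is full over rows with gradients `2 ^ (w_j n)` (a large minor), then its cells of the
level `b` have at least the entropy `v b + E sum (b - w_j)_+` over the label of the rows. -/

set_option autoImplicit false

namespace Pool.Agent.Helper93.LVL

open Finset Filter Topology Matrix Metric Pool.Agent.Helper69.RK Pool.Agent.Helper31.EC Pool.Agent.Helper31.EC.Sp
open Pool.Agent.Helper95.LF (PdM)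
open Pool.Agent.Helper95.LF (dv_add)
open Pool.Agent.Helper40.EL
open Pool.Agent.Helper3.LF Pool.Agent.Helper84.MT
open Pool.Agent.Helper89.LX (dot_self_nonneg sum_mul_le Sub_pow')
open Pool.Agent.Helper76.ADP (RowsF RowsK exists_K rmx node_near var_cell sub_congr)
open Pool.Agent.Helper76.THK (cnt_fc)
open Pool.Agent.Helper76.PUR (cJ)

noncomputable section

variable {S : Sp} {M v q D : ℕ}

/-- the exponent of the rows and of the cells of level `b` -/
def sgb (v : ℕ) (b : ℝ) (w : Fin q → ℝ) : ℝ := v * b + ∑ j, max b (w j)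

/-- the corner of the cell of level `b` -/
def crb (Q : S.VV M) (b : ℝ) (k : ℕ) (ω : (S.F k).Ω) (i : Fin M) : ℝ := S.dl b k * (Q.cellv b k ω i : ℤ)

theorem crb_near (Q : S.VV M) (b : ℝ) (k : ℕ) (ω : (S.F k).Ω) (i : Fin M) :
    |Q.v k ω i - crb Q b k ω i| ≤ S.dl b k := by
  have hd := S.dl_pos b k
  have h1 := Int.floor_le (Q.v k ω i / S.dl b k)
  have h2 := Int.lt_floor_add_one (Q.v k ω i / S.dl b k)
  have e1 : crb Q b k ω i = S.dl b k * (⌊Q.v k ω i / S.dl b k⌋ : ℤ) := rfl
  rw [e1, abs_le]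
  rw [le_div_iff₀ hd] at h1
  rw [div_lt_iff₀ hd] at h2
  constructor <;> linarith

/-- scales, rows, constants of the form of the rows and of the cell of level `b` -/
def tb (M q : ℕ) (β : ℝ) : Fin q ⊕ Fin M → ℝ := Sum.elim (fun _ => 1) (fun _ => β)

def pb' (M q : ℕ) (f : Fin q → MvPolynomial (Fin M) ℝ) : Fin q ⊕ Fin M → MvPolynomial (Fin M) ℝ :=
  Sum.elim f (fun i => MvPolynomial.X i)

def cb (M q : ℕ) (a : Fin M → ℝ) : Fin q ⊕ Fin M → ℝ := Sum.elim (fun _ => 0) a

/-- the form -/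
def Bb (D : ℕ) (β : ℝ) (f : Fin q → MvPolynomial (Fin M) ℝ) (a : Fin M → ℝ) : Matrix (Mon M D) (Mon M D) ℝ :=
  Brg D (tb M q β) (pb' M q f) (cb M q a)

/-- the gradient determinant of the form -/
theorem Bb_GQ (hvq : v + q = M) (hD : 1 ≤ D) (E : Fin v ⊕ Fin q ≃ Fin M) (f : Fin q → MvPolynomial (Fin M) ℝ)
    (hf : ∀ j, (f j).totalDegree ≤ D) (a : Fin M → ℝ) (r : ℝ) (x : Fin M → ℝ) {K : ℝ} (hK : 1 ≤ K) (d : Fin q → ℝ)
    (hd : ∀ j, 0 < d j) (h1 : ∀ j a, |MvPolynomial.eval x (MvPolynomial.pderiv a (f j))| ≤ K * d j)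
    (h2 : ∏ j, d j ≤ K * |(rmx E f x).det|) {β : ℝ} (hβ : 0 < β) :
    β ^ (2 * v) * ∏ j, max β (d j) ^ 2 ≤ cD q K ^ q * GQ r (Bb D β f a) x := by
  set Φ : Matrix (Fin q) (Fin M) ℝ := Matrix.of fun j b => MvPolynomial.eval x (MvPolynomial.pderiv b (f j)) / d j
    with hΦ
  have hK0 : 0 < K := by linarith
  have hΦK : ∀ j b, |Φ j b| ≤ K := by
    intro j b
    show |MvPolynomial.eval x (MvPolynomial.pderiv b (f j)) / d j| ≤ K
    rw [abs_div, abs_of_pos (hd j), div_le_iff₀ (hd j)]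
    exact h1 j b
  have hpd : 0 < ∏ j, d j := Finset.prod_pos fun j _ => hd j
  have hdet : 1 / K ≤ |(Matrix.of fun j i => Φ j (E (Sum.inr i))).det| := by
    have e1 : rmx E f x = Matrix.diagonal d * (Matrix.of fun j i => Φ j (E (Sum.inr i))) := by
      ext j i
      rw [Matrix.diagonal_mul]
      show MvPolynomial.eval x (MvPolynomial.pderiv (E (Sum.inr i)) (f j)) =
        d j * (MvPolynomial.eval x (MvPolynomial.pderiv (E (Sum.inr i)) (f j)) / d j)
      have := (hd j).ne'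
      field_simp
    rw [e1, Matrix.det_mul, Matrix.det_diagonal, abs_mul, abs_of_pos hpd] at h2
    rw [div_le_iff₀ hK0]
    have h3 : (∏ j, d j) * 1 ≤ (∏ j, d j) * (|(Matrix.of fun j i => Φ j (E (Sum.inr i))).det| * K) := by
      rw [mul_one]
      refine h2.trans (le_of_eq ?_)
      ring
    exact le_of_mul_le_mul_left h3 hpd
  have h3 := det_low hvq E Φ hK hΦK hdet d hβ
  set F : Matrix (Fin q) (Fin M) ℝ := Matrix.diagonal d * Φ with hF
  have hFa : ∀ j b, F j b = MvPolynomial.eval x (MvPolynomial.pderiv b (f j)) := by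
    intro j b
    rw [hF, Matrix.diagonal_mul]
    show d j * (MvPolynomial.eval x (MvPolynomial.pderiv b (f j)) / d j) = _
    have := (hd j).ne'
    field_simp
  have hq : ∀ y : Fin M → ℝ, y ⬝ᵥ ((β ^ 2 • (1 : Matrix (Fin M) (Fin M) ℝ) + F.transpose * F) *ᵥ y) =
      ∑ i, (β * y i) ^ 2 + ∑ j, (∑ b, MvPolynomial.eval x (MvPolynomial.pderiv b (f j)) * y b) ^ 2 := by
    intro y
    rw [dv_add, Matrix.smul_mulVec, Matrix.one_mulVec, dotProduct_smul, smul_eq_mul, ← Matrix.mulVec_mulVec,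
      Matrix.dotProduct_mulVec, Matrix.vecMul_transpose]
    congr 1
    · unfold dotProduct
      rw [Finset.mul_sum]
      exact Finset.sum_congr rfl fun j _ => by ring
    · unfold dotProduct
      refine Finset.sum_congr rfl fun j _ => ?_
      rw [← pow_two]
      congr 1
      show ∑ b, F j b * y b = _
      exact Finset.sum_congr rfl fun b _ => by rw [hFa]
  have hP : PdM (β ^ 2 • (1 : Matrix (Fin M) (Fin M) ℝ) + F.transpose * F) := by
    refine ⟨?_, fun y hy => ?_⟩
    · apply Matrix.IsSymm.add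
      · exact Matrix.isSymm_one.smul _
      · show (F.transpose * F).transpose = F.transpose * F
        rw [Matrix.transpose_mul, Matrix.transpose_transpose]
    · rw [hq]
      have h4 : ∃ j, y j ≠ 0 := by
        by_contra hcon
        apply hy
        funext j
        by_contra h5
        exact hcon ⟨j, h5⟩
      obtain ⟨j, hj⟩ := h4
      have h5 : 0 < ∑ i, (β * y i) ^ 2 := Finset.sum_pos' (fun i _ => sq_nonneg _) ⟨j, Finset.mem_univ j, by positivity⟩
      have h6 : 0 ≤ ∑ j, (∑ b, MvPolynomial.eval x (MvPolynomial.pderiv b (f j)) * y b) ^ 2 :=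
        Finset.sum_nonneg fun j _ => sq_nonneg _
      linarith
  have h4 := Brg_GQ (D := D) (tb M q β) (pb' M q f) (cb M q a) (by
    intro j
    rcases j with j | i
    · exact hf j
    · show (MvPolynomial.X i : MvPolynomial (Fin M) ℝ).totalDegree ≤ D
      rw [MvPolynomial.totalDegree_X]
      exact hD) r x hP (fun y => by
    rw [hq, Fintype.sum_sum_type, add_comm]
    apply le_of_eq
    congr 1
    · refine Finset.sum_congr rfl fun j _ => ?_
      show _ = (1 * ∑ b, MvPolynomial.eval x (MvPolynomial.pderiv b (f j)) * y b) ^ 2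
      rw [one_mul]
    · refine Finset.sum_congr rfl fun i _ => ?_
      show _ = (β * ∑ b, MvPolynomial.eval x (MvPolynomial.pderiv b (MvPolynomial.X i)) * y b) ^ 2
      congr 2
      rw [Finset.sum_eq_single i]
      · rw [MvPolynomial.pderiv_X_self, map_one, one_mul]
      · intro b _ hb
        rw [MvPolynomial.pderiv_X_of_ne (fun h => hb h.symm), map_zero, zero_mul]
      · intro h
        exact absurd (Finset.mem_univ _) h)
  have h5 : 0 ≤ cD q K ^ q := by
    have := cD_one q K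
    positivity
  exact h3.trans (mul_le_mul_of_nonneg_left h4 h5)

/-- the size of the form -/
def szb (M D q : ℕ) (K : ℝ) : ℝ := nn M D * Fintype.card (Mon M D) * (K + 1) ^ (2 * D) +
  Fintype.card (Fin M → Fin (D + 1)) * (Fintype.card (Fin q ⊕ Fin M) * (M * K + K + 2) ^ 2)

theorem Bb_phi (hD : 1 ≤ D) (f : Fin q → MvPolynomial (Fin M) ℝ)
    (hf : ∀ j, (f j).totalDegree ≤ D) (a : Fin M → ℝ) {r : ℝ} (hr : 0 < r) (hr1 : r ≤ 1) (x : Fin M → ℝ) {K : ℝ}
    (hK : 1 ≤ K) (hx : ∀ i, |x i| ≤ K) (h0 : ∀ j, |MvPolynomial.eval x (f j)| ≤ K)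
    (h1 : ∀ y : Fin M → ℝ, (∀ i, |y i - x i| ≤ r) → ∀ j b, r * |MvPolynomial.eval y (MvPolynomial.pderiv b (f j))| ≤ K)
    {β : ℝ} (hβ : 0 < β) (hβr : β * r ≤ 1) (ha : ∀ i, β * |x i - a i| ≤ 1) :
    phi r (Bb D β f a) x ≤ szb M D q K := by
  have hK0 : 0 < K := by linarith
  refine Brg_phi (D := D) (tb M q β) (pb' M q f) (cb M q a) ?_ hr.le (by linarith) x ?_ ?_
  · intro j
    rcases j with j | i
    · exact hf j
    · show (MvPolynomial.X i : MvPolynomial (Fin M) ℝ).totalDegree ≤ D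
      rw [MvPolynomial.totalDegree_X]
      exact hD
  · intro i
    linarith [hx i]
  · intro j l
    have hMK : (0 : ℝ) ≤ M * K := by positivity
    rcases j with j | i
    · show (1 * (MvPolynomial.eval (nodp D x r l) (f j) - 0)) ^ 2 ≤ _
      rw [one_mul, sub_zero, ← sq_abs]
      refine pow_le_pow_left₀ (abs_nonneg _) ?_ 2
      have h5 := var_cell (f j) x (nodp D x r l) hr.le (fun i => node_near x hr.le l i) (G := K / r) (fun z hz b => by
        rw [le_div_iff₀ hr, mul_comm]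
        exact h1 z hz j b)
      have e1 : (M : ℝ) * (r * (K / r)) = M * K := by field_simp
      rw [e1] at h5
      have h6 := abs_add_le (MvPolynomial.eval (nodp D x r l) (f j) - MvPolynomial.eval x (f j))
        (MvPolynomial.eval x (f j))
      rw [sub_add_cancel] at h6
      linarith [h0 j]
    · show (β * (MvPolynomial.eval (nodp D x r l) (MvPolynomial.X i) - a i)) ^ 2 ≤ _
      rw [MvPolynomial.eval_X, ← sq_abs]
      refine pow_le_pow_left₀ (abs_nonneg _) ?_ 2
      rw [abs_mul, abs_of_pos hβ]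
      have h5 := node_near x hr.le l i
      have h6 := abs_add_le (nodp D x r l i - x i) (x i - a i)
      rw [sub_add_sub_cancel] at h6
      have h7 : β * |nodp D x r l i - a i| ≤ β * r + β * |x i - a i| := by
        rw [← mul_add]
        exact mul_le_mul_of_nonneg_left (h6.trans (add_le_add h5 le_rfl)) hβ.le
      linarith [ha i]

theorem sub_cJ {K : ℕ → ℝ} (hK : S.Sub K) : S.Sub (fun k => cJ q (K k) (1 / K k)) := by
  have h2 : S.Sub (fun k => ((q : ℝ) + 1) * (q.factorial * (K k) ^ q) * K k) :=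
    ((S.Sub_const (by positivity : (0 : ℝ) ≤ (q : ℝ) + 1)).mul ((S.Sub_const (by positivity : (0 : ℝ) ≤ q.factorial)).mul
      (Sub_pow' hK q))).mul hK
  refine sub_congr h2 (Eventually.of_forall fun k => ?_)
  unfold cJ
  simp only [one_div, div_inv_eq_mul]

theorem sub_cD {K : ℕ → ℝ} (hK : S.Sub K) : S.Sub (fun k => cD q (K k) ^ q) := by
  refine Sub_pow' ?_ q
  exact ((S.Sub_const (Nat.cast_nonneg q)).mul (Sub_pow' (sub_cJ hK) 2)).add (S.Sub_const zero_le_one)

theorem sub_szb {K : ℕ → ℝ} (hK : S.Sub K) : S.Sub (fun k => szb M D q (K k)) := by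
  have h0 := nn_one M D
  have h1 : S.Sub (fun k => K k + 1) := hK.add (S.Sub_const zero_le_one)
  have h2 : S.Sub (fun k => (M : ℝ) * K k + K k + 2) :=
    (((S.Sub_const (Nat.cast_nonneg M)).mul hK).add hK).add (S.Sub_const (by norm_num))
  have hn : (0 : ℝ) ≤ nn M D := by linarith
  exact ((S.Sub_const (by positivity : (0 : ℝ) ≤ nn M D * Fintype.card (Mon M D))).mul (Sub_pow' h1 (2 * D))).add
    ((S.Sub_const (Nat.cast_nonneg _)).mul ((S.Sub_const (Nat.cast_nonneg _)).mul (Sub_pow' h2 2)))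

/-- the exponents of the form -/
theorem sgb_pow (n b : ℝ) (hn : 0 ≤ n) (w : Fin q → ℝ) :
    (2 : ℝ) ^ (2 * sgb v b w * n) = (2 ^ (b * n)) ^ (2 * v) * ∏ j, max (2 ^ (b * n)) ((2 : ℝ) ^ (w j * n)) ^ 2 := by
  have h1 : ∀ j, max ((2 : ℝ) ^ (b * n)) (2 ^ (w j * n)) ^ 2 = 2 ^ (2 * max b (w j) * n) := by
    intro j
    have h2 : max ((2 : ℝ) ^ (b * n)) (2 ^ (w j * n)) = 2 ^ (max b (w j) * n) := by
      rcases le_total b (w j) with h | h
      · rw [max_eq_right h, max_eq_right]
        exact Real.rpow_le_rpow_of_exponent_le (by norm_num) (mul_le_mul_of_nonneg_right h hn)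
      · rw [max_eq_left h, max_eq_left]
        exact Real.rpow_le_rpow_of_exponent_le (by norm_num) (mul_le_mul_of_nonneg_right h hn)
    rw [h2, ← Real.rpow_natCast, ← Real.rpow_mul (by norm_num)]
    congr 1
    push_cast
    ring
  rw [Finset.prod_congr rfl fun j _ => h1 j, ← Real.rpow_sum_of_pos (by norm_num), ← Real.rpow_natCast,
    ← Real.rpow_mul (by norm_num), ← Real.rpow_add (by norm_num)]
  congr 1
  unfold sgb
  push_cast
  rw [mul_add, add_mul, Finset.mul_sum, Finset.sum_mul]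
  congr 1
  ring

/-- COUNTING the fine cells of the point in a cell of level `b`, over the rows -/
theorem cnt_lvl (hvq : v + q = M) (hD : 1 ≤ D) {V : ∀ k, Setoid (S.F k).Ω} {Q : S.VV M}
    {E : ∀ k, (S.F k).Ω → (Fin v ⊕ Fin q ≃ Fin M)} {f : ∀ k, (S.F k).Ω → Fin q → MvPolynomial (Fin M) ℝ}
    {w : ∀ k, (S.F k).Ω → Fin q → ℝ} (x : RowsF V Q D E f w) {b : ℝ} (hb : 0 ≤ b) (hb1 : b ≤ 1) {ε : ℝ} (hε : 0 < ε) :
    ∀ᶠ k in UF, (S.F k).e (Setoid.ker (Q.cellv 1 k)) (Setoid.ker (Q.cellv b k) ⊓ (V k ⊓ (S.F k).Z)) +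
      (S.F k).n * ∑ ω, (S.F k).μ ω * sgb v b (w k ω) ≤ (M + ε) * (S.F k).n := by
  obtain ⟨K, A, y⟩ := exists_K x
  have h1 := cnt_fc (S := S) (M := M) (D := D) hD Q zero_le_one (fun k => Setoid.ker (Q.cellv b k) ⊓ V k)
    (fun k ω => Bb D (S.dl b k)⁻¹ (f k ω) (crb Q b k ω))
    (Eventually.of_forall fun k ω _ => ⟨Brg_symm _ _ _, fun v => Brg_one _ _ _ v⟩) (by
      filter_upwards [x.msf] with k hk ω ω' h h' hZ hW
      have e1 := hk ω ω' h h' hZ hW.2
      have e2 : Q.cellv b k ω = Q.cellv b k ω' := hW.1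
      have e3 : crb Q b k ω = crb Q b k ω' := by
        funext i
        unfold crb
        rw [e2]
      show Bb D (S.dl b k)⁻¹ (f k ω) (crb Q b k ω) = Bb D (S.dl b k)⁻¹ (f k ω') (crb Q b k ω')
      rw [e1, e3]) A y.tA (fun k => szb M D q (K k) + cD q (K k) ^ q) ((sub_szb y.subK).add (sub_cD y.subK))
    (fun k ω => sgb v b (w k ω)) (by
      filter_upwards [x.w01] with k hk ω hω
      have h1 := hk ω hω
      have h2 : ∀ j, 0 ≤ max b (w k ω j) := fun j => hb.trans (le_max_left _ _)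
      have h3 : ∀ j, max b (w k ω j) ≤ 1 := fun j => max_le hb1 (h1 j).2
      have h4 : ∑ j, max b (w k ω j) ≤ q := by
        refine (Finset.sum_le_card_nsmul _ _ 1 fun j _ => h3 j).trans (le_of_eq ?_)
        rw [Finset.card_univ, Fintype.card_fin, nsmul_eq_mul, mul_one]
      have h5 : 0 ≤ ∑ j, max b (w k ω j) := Finset.sum_nonneg fun j _ => h2 j
      have h6 : (v : ℝ) * b ≤ v := mul_le_of_le_one_right (Nat.cast_nonneg v) hb1
      have h7 : 0 ≤ (v : ℝ) * b := mul_nonneg (Nat.cast_nonneg v) hb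
      have h8 : (M : ℝ) = v + q := by
        rw [← hvq]
        push_cast
        ring
      unfold sgb
      rw [mul_one, h8]
      constructor <;> linarith) (by
      filter_upwards [x.w01, x.deg, y.qb, y.bd, y.der] with k hw hdg hq hbd hder ω hω hA
      have hK1 := y.K1 k
      have hc : 0 ≤ cD q (K k) ^ q := by
        have := cD_one q (K k)
        positivity
      refine le_trans (Bb_phi hD (f k ω) (hdg ω hω) (crb Q b k ω) (S.dl_pos 1 k) ?_ (Q.v k ω) hK1 (hq ω hω)
        (hbd ω hω hA) ?_ (inv_pos.mpr (S.dl_pos b k)) ?_ ?_) (le_add_of_nonneg_right hc)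
      · exact (S.dl_anti zero_le_one k).trans (S.dl_zero k).le
      · intro z hz j a
        have h2 := hder ω hω hA z hz j a
        have h3 : S.dl 1 k * (K k * 2 ^ (w k ω j * (S.F k).n)) ≤ K k := by
          have h4 : S.dl 1 k * 2 ^ (w k ω j * (S.F k).n) ≤ 1 := by
            unfold Sp.dl
            rw [← Real.rpow_add (by norm_num)]
            apply Real.rpow_le_one_of_one_le_of_nonpos (by norm_num)
            have h5 := (hw ω hω j).2
            have h6 := (S.F k).pos
            nlinarith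
          calc S.dl 1 k * (K k * 2 ^ (w k ω j * (S.F k).n)) = K k * (S.dl 1 k * 2 ^ (w k ω j * (S.F k).n)) := by ring
            _ ≤ K k * 1 := mul_le_mul_of_nonneg_left h4 (by linarith)
            _ = K k := mul_one _
        exact (mul_le_mul_of_nonneg_left h2 (S.dl_pos 1 k).le).trans h3
      · rw [inv_mul_le_iff₀ (S.dl_pos b k), mul_one]
        exact S.dl_anti hb1 k
      · intro i
        rw [inv_mul_le_iff₀ (S.dl_pos b k), mul_one]
        exact crb_near Q b k ω i) (by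
      filter_upwards [x.deg, y.der, y.det] with k hdg hder hdet ω hω hA
      have hK1 := y.K1 k
      have hn := (S.F k).pos
      have hdl : (S.dl b k)⁻¹ = 2 ^ (b * (S.F k).n) := by
        unfold Sp.dl
        rw [Real.rpow_neg (by norm_num), inv_inv]
      have h2 := Bb_GQ (D := D) hvq hD (E k ω) (f k ω) (hdg ω hω) (crb Q b k ω) (S.dl 1 k) (Q.v k ω) hK1
        (fun j => 2 ^ (w k ω j * (S.F k).n)) (fun j => by positivity) (fun j a => hder ω hω hA (Q.v k ω) (fun i => by
          rw [sub_self, abs_zero]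
          exact (S.dl_pos 1 k).le) j a) (by
          rw [← Real.rpow_sum_of_pos (by norm_num), ← Finset.sum_mul]
          exact hdet ω hω hA) (inv_pos.mpr (S.dl_pos b k))
      have hG : 0 ≤ GQ (S.dl 1 k) (Bb D (S.dl b k)⁻¹ (f k ω) (crb Q b k ω)) (Q.v k ω) :=
        zero_le_one.trans (one_le_GQ (S.dl 1 k) (Brg_symm _ _ _) (Brg_nn _ _ _) (Q.v k ω))
      have h3 : (2 : ℝ) ^ (2 * sgb v b (w k ω) * (S.F k).n) ≤ cD q (K k) ^ q *
          GQ (S.dl 1 k) (Bb D (S.dl b k)⁻¹ (f k ω) (crb Q b k ω)) (Q.v k ω) := by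
        rw [sgb_pow (S.F k).n b hn.le (w k ω)]
        rw [hdl] at h2 ⊢
        exact h2
      have hs : 0 ≤ szb M D q (K k) := by
        have h0 := nn_one M D
        have hn0 : (0 : ℝ) ≤ nn M D := by linarith
        have hk0 : 0 ≤ K k + 1 := by linarith
        unfold szb
        positivity
      refine h3.trans (mul_le_mul_of_nonneg_right ?_ hG)
      linarith) hε
  filter_upwards [h1] with k hk
  rw [mul_one, inf_assoc] at hk
  exact hk

/-- **LEVELS, LOWER PART** -/
theorem lvl_lo (hvq : v + q = M) (hD : 1 ≤ D) {V : ∀ k, Setoid (S.F k).Ω} {Q : S.VV M}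
    {E : ∀ k, (S.F k).Ω → (Fin v ⊕ Fin q ≃ Fin M)} {f : ∀ k, (S.F k).Ω → Fin q → MvPolynomial (Fin M) ℝ}
    {w : ∀ k, (S.F k).Ω → Fin q → ℝ} (x : RowsF V Q D E f w) {b : ℝ} (hb : 0 ≤ b) (hb1 : b ≤ 1) {ε : ℝ} (hε : 0 < ε) :
    ∀ᶠ k in UF, (v * b + ∑ ω, (S.F k).μ ω * ∑ j, max (b - w k ω j) 0 - ε) * (S.F k).n ≤
      (S.F k).e (Setoid.ker (Q.cellv b k)) (V k ⊓ (S.F k).Z) := by
  filter_upwards [cnt_lvl hvq hD x hb hb1 (half_pos hε), x.fu (ε / 2) (half_pos hε)] with k h1 h2
  have h3 := (S.F k).e_triangle (Setoid.ker (Q.cellv 1 k)) (Setoid.ker (Q.cellv b k)) (V k ⊓ (S.F k).Z)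
  have e1 : ∑ ω, (S.F k).μ ω * sgb v b (w k ω) = v * b + ∑ ω, (S.F k).μ ω * ∑ j, max (b - w k ω j) 0 +
      ∑ ω, (S.F k).μ ω * ∑ j, w k ω j := by
    have e2 : ∀ ω, (S.F k).μ ω * sgb v b (w k ω) = (S.F k).μ ω * (v * b) + (S.F k).μ ω * ∑ j, max (b - w k ω j) 0 +
        (S.F k).μ ω * ∑ j, w k ω j := by
      intro ω
      have e3 : ∑ j, max b (w k ω j) = ∑ j, max (b - w k ω j) 0 + ∑ j, w k ω j := by
        rw [← Finset.sum_add_distrib]
        refine Finset.sum_congr rfl fun j _ => ?_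
        rcases le_total b (w k ω j) with h | h
        · rw [max_eq_right h, max_eq_right (by linarith)]
          ring
        · rw [max_eq_left h, max_eq_left (by linarith)]
          ring
      unfold sgb
      rw [e3]
      ring
    rw [Finset.sum_congr rfl fun ω _ => e2 ω, Finset.sum_add_distrib, Finset.sum_add_distrib, ← Finset.sum_mul]
    have h5 : ∑ ω, (S.F k).μ ω = 1 := (S.F k).ms
    rw [h5, one_mul]
  rw [e1] at h1
  have hn := (S.F k).pos
  nlinarith

end

end Pool.Agent.Helper93.LVL
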