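import Pool.Agent.Helper76.THK.Rwf
import Pool.Agent.Helper76.PUR.Ift

/-! THE FORM OF A FINITE FAMILY OF ROWS with scales: `1 + sum t_j ^ 2 (psi_j - c_j) ^ 2`; its size on a cell and a lower
bound of its gradient determinant. A determinant bound: rows with a large minor, plus a multiple of the identity. -/

set_option autoImplicit false

namespace Pool.Agent.Helper93.LVL

open MvPolynomial Matrix
open Pool.Agent.Helper95.LF (PdM det_mono)
open Pool.Agent.Helper95.LF (dv_add)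
open Pool.Agent.Helper3.LF Pool.Agent.Helper84.MT
open Pool.Agent.Helper89.LX (dot_self_nonneg)
open Pool.Agent.Helper76.THK (cv pol_cv nodp_zero)
open Pool.Agent.Helper76.PUR (cJ inv_bd)

noncomputable section

variable {M D : ℕ} {κ : Type} [Fintype κ]

/-- the form of the rows -/
def Brg (D : ℕ) (t : κ → ℝ) (ψ : κ → MvPolynomial (Fin M) ℝ) (c : κ → ℝ) : Matrix (Mon M D) (Mon M D) ℝ :=
  1 + ∑ j, rk1 (t j ^ 2) (shf (cv D (ψ j)) (c j))

variable (t : κ → ℝ) (ψ : κ → MvPolynomial (Fin M) ℝ) (c : κ → ℝ)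

lemma Brg_qf (x : Mon M D → ℝ) :
    x ⬝ᵥ (Brg D t ψ c *ᵥ x) = x ⬝ᵥ x + ∑ j, t j ^ 2 * (shf (cv D (ψ j)) (c j) ⬝ᵥ x) ^ 2 := by
  unfold Brg
  rw [dv_add, dv_sum, Matrix.one_mulVec]
  congr 1
  exact Finset.sum_congr rfl fun j _ => qf_rk1 _ _ _

lemma Brg_symm : (Brg D t ψ c).IsSymm := by
  unfold Brg
  apply Matrix.IsSymm.add
  · exact Matrix.isSymm_one
  · have h : ∀ s : Finset κ, (∑ j ∈ s, rk1 (t j ^ 2) (shf (cv D (ψ j)) (c j))).IsSymm := by
      intro s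
      classical
      induction s using Finset.induction_on with
      | empty => exact Matrix.isSymm_zero
      | insert a s ha ih =>
        rw [Finset.sum_insert ha]
        exact (rk1_symm _ _).add ih
    exact h _

lemma Brg_one (x : Mon M D → ℝ) : x ⬝ᵥ x ≤ x ⬝ᵥ (Brg D t ψ c *ᵥ x) := by
  rw [Brg_qf]
  have h : 0 ≤ ∑ j, t j ^ 2 * (shf (cv D (ψ j)) (c j) ⬝ᵥ x) ^ 2 := Finset.sum_nonneg fun j _ => by positivity
  linarith

lemma Brg_nn (x : Mon M D → ℝ) : 0 ≤ x ⬝ᵥ (Brg D t ψ c *ᵥ x) :=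
  (dot_self_nonneg x).trans (Brg_one t ψ c x)

/-- size on the cell -/
lemma Brg_phi (hψ : ∀ j, (ψ j).totalDegree ≤ D) {r R B : ℝ} (hr : 0 ≤ r) (hR : 1 ≤ R) (x : Fin M → ℝ)
    (hx : ∀ i, |x i| + r ≤ R)
    (hB : ∀ j (l : Fin M → Fin (D + 1)), (t j * (eval (nodp D x r l) (ψ j) - c j)) ^ 2 ≤ B) :
    phi r (Brg D t ψ c) x ≤ nn M D * Fintype.card (Mon M D) * R ^ (2 * D) +
      Fintype.card (Fin M → Fin (D + 1)) * (Fintype.card κ * B) := by
  have h1 : phi r (Brg D t ψ c) x = phi r (1 : Matrix (Mon M D) (Mon M D) ℝ) x +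
      ∑ l : Fin M → Fin (D + 1), ∑ j, (t j * (eval (nodp D x r l) (ψ j) - c j)) ^ 2 := by
    unfold phi
    rw [← Finset.sum_add_distrib]
    refine Finset.sum_congr rfl fun l _ => ?_
    rw [Brg_qf, Matrix.one_mulVec]
    congr 1
    refine Finset.sum_congr rfl fun j _ => ?_
    rw [← eval_pol, eval_shf, pol_cv (hψ j), mul_pow]
  have h2 := phi_le (1 : Matrix (Mon M D) (Mon M D) ℝ) 1 (fun x => by
    rw [Matrix.one_mulVec, one_mul]) zero_le_one r R hr hR x hx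
  rw [mul_one] at h2
  rw [h1]
  apply add_le_add h2
  have h3 : ∀ l ∈ (Finset.univ : Finset (Fin M → Fin (D + 1))),
      ∑ j, (t j * (eval (nodp D x r l) (ψ j) - c j)) ^ 2 ≤ Fintype.card κ * B := by
    intro l _
    refine (Finset.sum_le_card_nsmul _ _ B fun j _ => hB j l).trans (le_of_eq ?_)
    rw [Finset.card_univ, nsmul_eq_mul]
  refine (Finset.sum_le_card_nsmul _ _ _ h3).trans (le_of_eq ?_)
  rw [Finset.card_univ, nsmul_eq_mul]

/-- the gradient determinant -/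
lemma Brg_GQ (hψ : ∀ j, (ψ j).totalDegree ≤ D) (r : ℝ) (x : Fin M → ℝ) {P : Matrix (Fin M) (Fin M) ℝ} (hP : PdM P)
    (h : ∀ y : Fin M → ℝ, y ⬝ᵥ (P *ᵥ y) ≤ ∑ j, (t j * ∑ a, eval x (pderiv a (ψ j)) * y a) ^ 2) :
    P.det ≤ GQ r (Brg D t ψ c) x := by
  have hpd := one_Jq_pd r (Brg_symm (D := D) t ψ c) (Brg_nn t ψ c) x
  have hGy : ∀ (y : Fin M → ℝ) (j : κ), t j * ∑ a, eval x (pderiv a (ψ j)) * y a =
      t j * (shf (cv D (ψ j)) (c j) ⬝ᵥ (Wq M D (nodp D x r (fun _ => 0)) *ᵥ y)) := by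
    intro y j
    have e1 : (Wq M D (nodp D x r (fun _ => 0)) *ᵥ y) = ∑ a, y a • dd a (nodp D x r (fun _ => 0)) := by
      funext μ
      rw [Finset.sum_apply]
      show ∑ a, dd a (nodp D x r (fun _ => 0)) μ * y a = ∑ a, y a * dd a (nodp D x r (fun _ => 0)) μ
      exact Finset.sum_congr rfl fun a _ => mul_comm _ _
    have e2 : ∀ a, shf (cv D (ψ j)) (c j) ⬝ᵥ dd a (nodp D x r (fun _ => 0)) = eval x (pderiv a (ψ j)) := by
      intro a
      rw [shf_dot, dd_zero, mul_zero, sub_zero, ← eval_pderiv_pol, pol_cv (hψ j), nodp_zero]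
    rw [e1, dotProduct_sum]
    congr 1
    refine Finset.sum_congr rfl fun a _ => ?_
    rw [dotProduct_smul, e2, smul_eq_mul]
    ring
  refine det_mono hP hpd.1 fun y => ?_
  rw [dv_add, Matrix.one_mulVec, Jq_qf]
  have h1 := dot_self_nonneg y
  have h2 : y ⬝ᵥ (P *ᵥ y) ≤ (Wq M D (nodp D x r (fun _ => 0)) *ᵥ y) ⬝ᵥ
      (Brg D t ψ c *ᵥ (Wq M D (nodp D x r (fun _ => 0)) *ᵥ y)) := by
    refine (h y).trans ?_
    rw [Brg_qf]
    have h3 : ∀ j, (t j * ∑ a, eval x (pderiv a (ψ j)) * y a) ^ 2 = t j ^ 2 * (shf (cv D (ψ j)) (c j) ⬝ᵥ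
        (Wq M D (nodp D x r (fun _ => 0)) *ᵥ y)) ^ 2 := by
      intro j
      rw [hGy, mul_pow]
    rw [Finset.sum_congr rfl fun j _ => h3 j]
    have h4 := dot_self_nonneg (Wq M D (nodp D x r (fun _ => 0)) *ᵥ y)
    linarith
  have h3 := Finset.single_le_sum (f := fun j : Fin M → Fin (D + 1) => (Wq M D (nodp D x r j) *ᵥ y) ⬝ᵥ
      (Brg D t ψ c *ᵥ (Wq M D (nodp D x r j) *ᵥ y))) (fun j _ => Brg_nn t ψ c _) (Finset.mem_univ (fun _ => 0))
  have h4 : (Wq M D (nodp D x r (fun _ => 0)) *ᵥ y) ⬝ᵥ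
      (Brg D t ψ c *ᵥ (Wq M D (nodp D x r (fun _ => 0)) *ᵥ y)) ≤ ∑ j : Fin M → Fin (D + 1),
      (Wq M D (nodp D x r j) *ᵥ y) ⬝ᵥ (Brg D t ψ c *ᵥ (Wq M D (nodp D x r j) *ᵥ y)) := h3
  linarith

/-! ### a determinant -/

/-- the constant -/
def cD (q : ℕ) (K : ℝ) : ℝ := q * cJ q K (1 / K) ^ 2 + 1

lemma cD_one (q : ℕ) (K : ℝ) : 1 ≤ cD q K := by
  unfold cD
  have : (0 : ℝ) ≤ q * cJ q K (1 / K) ^ 2 := by positivity
  linarith

/-- rows with a large minor do not degenerate -/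
lemma rows_inj {v q : ℕ} (E : Fin v ⊕ Fin q ≃ Fin M) (Φ : Matrix (Fin q) (Fin M) ℝ) {K : ℝ} (hK : 1 ≤ K)
    (hΦ : ∀ j a, |Φ j a| ≤ K) (hdet : 1 / K ≤ |(Matrix.of fun j i => Φ j (E (Sum.inr i))).det|) (x : Fin q → ℝ) :
    ∑ j, x j ^ 2 ≤ cD q K * ∑ a, (∑ j, Φ j a * x j) ^ 2 := by
  set Ψ : Matrix (Fin q) (Fin q) ℝ := Matrix.of fun j i => Φ j (E (Sum.inr i)) with hΨ
  have hK0 : 0 < K := by linarith
  have h1 := inv_bd (Ψ.transpose) hK (fun i j => hΦ j _) (Δ := 1 / K) (by positivity) (by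
    rw [Matrix.det_transpose]
    exact hdet) (Ψ.transpose *ᵥ x)
  have hd0 : Ψ.transpose.det ≠ 0 := by
    rw [Matrix.det_transpose]
    intro h
    rw [h, abs_zero] at hdet
    have : 0 < 1 / K := by positivity
    linarith
  rw [Matrix.mulVec_mulVec, Matrix.nonsing_inv_mul _ (isUnit_iff_ne_zero.mpr hd0), Matrix.one_mulVec] at h1
  have hc0 : 0 ≤ cJ q K (1 / K) := by
    unfold cJ
    positivity
  have h2 : ‖Ψ.transpose *ᵥ x‖ ^ 2 ≤ ∑ a, (∑ j, Φ j a * x j) ^ 2 := by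
    have h3 : ‖Ψ.transpose *ᵥ x‖ ≤ Real.sqrt (∑ a, (∑ j, Φ j a * x j) ^ 2) := by
      rw [pi_norm_le_iff_of_nonneg (Real.sqrt_nonneg _)]
      intro i
      rw [Real.norm_eq_abs]
      apply Real.abs_le_sqrt
      have h4 := Finset.single_le_sum (f := fun a => (∑ j, Φ j a * x j) ^ 2) (fun a _ => sq_nonneg _)
        (Finset.mem_univ (E (Sum.inr i)))
      exact h4
    calc ‖Ψ.transpose *ᵥ x‖ ^ 2 ≤ Real.sqrt (∑ a, (∑ j, Φ j a * x j) ^ 2) ^ 2 :=
          pow_le_pow_left₀ (norm_nonneg _) h3 2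
      _ = _ := Real.sq_sqrt (Finset.sum_nonneg fun a _ => sq_nonneg _)
  have h5 : ∑ j, x j ^ 2 ≤ q * ‖x‖ ^ 2 := by
    refine (Finset.sum_le_card_nsmul _ _ (‖x‖ ^ 2) fun j _ => ?_).trans (le_of_eq ?_)
    · rw [← sq_abs (x j)]
      exact pow_le_pow_left₀ (abs_nonneg _) (norm_le_pi_norm x j) 2
    · rw [Finset.card_univ, Fintype.card_fin, nsmul_eq_mul]
  have h6 : ‖x‖ ^ 2 ≤ cJ q K (1 / K) ^ 2 * ‖Ψ.transpose *ᵥ x‖ ^ 2 := by
    rw [← mul_pow]
    exact pow_le_pow_left₀ (norm_nonneg _) h1 2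
  have h7 : 0 ≤ ∑ a, (∑ j, Φ j a * x j) ^ 2 := Finset.sum_nonneg fun a _ => sq_nonneg _
  calc ∑ j, x j ^ 2 ≤ q * (cJ q K (1 / K) ^ 2 * ‖Ψ.transpose *ᵥ x‖ ^ 2) :=
        h5.trans (mul_le_mul_of_nonneg_left h6 (Nat.cast_nonneg q))
    _ ≤ q * (cJ q K (1 / K) ^ 2 * ∑ a, (∑ j, Φ j a * x j) ^ 2) := by
        refine mul_le_mul_of_nonneg_left (mul_le_mul_of_nonneg_left h2 (sq_nonneg _)) (Nat.cast_nonneg q)
    _ ≤ cD q K * ∑ a, (∑ j, Φ j a * x j) ^ 2 := by
        unfold cD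
        linarith

/-- DETERMINANT of a multiple of the identity plus rows with a large minor -/
lemma det_low {v q : ℕ} (hvq : v + q = M) (E : Fin v ⊕ Fin q ≃ Fin M) (Φ : Matrix (Fin q) (Fin M) ℝ) {K : ℝ} (hK : 1 ≤ K)
    (hΦ : ∀ j a, |Φ j a| ≤ K) (hdet : 1 / K ≤ |(Matrix.of fun j i => Φ j (E (Sum.inr i))).det|) (d : Fin q → ℝ)
    {β : ℝ} (hβ : 0 < β) :
    β ^ (2 * v) * ∏ j, max β (d j) ^ 2 ≤
      cD q K ^ q * (β ^ 2 • (1 : Matrix (Fin M) (Fin M) ℝ) +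
        (Matrix.diagonal d * Φ).transpose * (Matrix.diagonal d * Φ)).det := by
  set F : Matrix (Fin q) (Fin M) ℝ := Matrix.diagonal d * Φ with hF
  have hC := cD_one q K
  have hC0 : 0 < cD q K := by linarith
  have hb2 : (β ^ 2 : ℝ) ≠ 0 := by positivity
  -- exchange
  have e1 : (β ^ 2 • (1 : Matrix (Fin M) (Fin M) ℝ) + F.transpose * F).det =
      β ^ (2 * v) * (β ^ 2 • (1 : Matrix (Fin q) (Fin q) ℝ) + F * F.transpose).det := by
    have h1 : β ^ 2 • (1 : Matrix (Fin M) (Fin M) ℝ) + F.transpose * F =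
        β ^ 2 • (1 + (((β ^ 2)⁻¹ • F.transpose) * F)) := by
      rw [smul_add, Matrix.smul_mul, smul_smul, mul_inv_cancel₀ hb2, one_smul]
    have h2 : β ^ 2 • (1 : Matrix (Fin q) (Fin q) ℝ) + F * F.transpose =
        β ^ 2 • (1 + (F * ((β ^ 2)⁻¹ • F.transpose))) := by
      rw [smul_add, Matrix.mul_smul, smul_smul, mul_inv_cancel₀ hb2, one_smul]
    have h4 : (β ^ 2) ^ M = β ^ (2 * v) * (β ^ 2) ^ q := by
      rw [← hvq, ← pow_mul, ← pow_mul, ← pow_add]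
      congr 1
      ring
    rw [h1, h2, Matrix.det_smul, Matrix.det_smul, Matrix.det_one_add_mul_comm, Fintype.card_fin, Fintype.card_fin,
      ← mul_assoc, h4]
  -- the lower bound
  have h3 : ∏ j, max β (d j) ^ 2 ≤ cD q K ^ q * (β ^ 2 • (1 : Matrix (Fin q) (Fin q) ℝ) + F * F.transpose).det := by
    have hdd : (Matrix.diagonal fun j => (cD q K)⁻¹ * max β (d j) ^ 2).det = ((cD q K)⁻¹) ^ q * ∏ j, max β (d j) ^ 2 := by
      rw [Matrix.det_diagonal, Finset.prod_mul_distrib, Finset.prod_const, Finset.card_univ, Fintype.card_fin]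
    have hmx : ∀ j, 0 < max β (d j) := fun j => lt_max_of_lt_left hβ
    have hpd : PdM (Matrix.diagonal fun j => (cD q K)⁻¹ * max β (d j) ^ 2) := by
      refine ⟨Matrix.isSymm_diagonal _, fun y hy => ?_⟩
      have h4 : ∃ j, y j ≠ 0 := by
        by_contra hcon
        apply hy
        funext j
        by_contra h5
        exact hcon ⟨j, h5⟩
      obtain ⟨j, hj⟩ := h4
      have h5 : y ⬝ᵥ (Matrix.diagonal (fun j => (cD q K)⁻¹ * max β (d j) ^ 2) *ᵥ y) =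
          ∑ j, (cD q K)⁻¹ * max β (d j) ^ 2 * y j ^ 2 := by
        unfold dotProduct
        refine Finset.sum_congr rfl fun j _ => ?_
        rw [Matrix.mulVec_diagonal]
        ring
      rw [h5]
      refine Finset.sum_pos' (fun i _ => ?_) ⟨j, Finset.mem_univ j, ?_⟩
      · have := hmx i
        positivity
      · have := hmx j
        positivity
    have hs : (β ^ 2 • (1 : Matrix (Fin q) (Fin q) ℝ) + F * F.transpose).IsSymm := by
      apply Matrix.IsSymm.add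
      · exact Matrix.isSymm_one.smul _
      · show (F * F.transpose).transpose = F * F.transpose
        rw [Matrix.transpose_mul, Matrix.transpose_transpose]
    have h6 := det_mono hpd hs fun y => by
      have h5 : y ⬝ᵥ (Matrix.diagonal (fun j => (cD q K)⁻¹ * max β (d j) ^ 2) *ᵥ y) =
          ∑ j, (cD q K)⁻¹ * max β (d j) ^ 2 * y j ^ 2 := by
        unfold dotProduct
        refine Finset.sum_congr rfl fun j _ => ?_
        rw [Matrix.mulVec_diagonal]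
        ring
      have h7 : y ⬝ᵥ ((β ^ 2 • (1 : Matrix (Fin q) (Fin q) ℝ) + F * F.transpose) *ᵥ y) =
          ∑ j, β ^ 2 * y j ^ 2 + ∑ a, (∑ j, Φ j a * (d j * y j)) ^ 2 := by
        rw [dv_add, Matrix.smul_mulVec, Matrix.one_mulVec, dotProduct_smul, smul_eq_mul, ← Matrix.mulVec_mulVec,
          Matrix.dotProduct_mulVec, ← Matrix.mulVec_transpose]
        congr 1
        · unfold dotProduct
          rw [Finset.mul_sum]
          exact Finset.sum_congr rfl fun j _ => by ring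
        · unfold dotProduct
          refine Finset.sum_congr rfl fun a _ => ?_
          rw [← pow_two]
          congr 1
          unfold Matrix.mulVec dotProduct
          refine Finset.sum_congr rfl fun j _ => ?_
          show (Matrix.diagonal d * Φ) j a * y j = _
          rw [Matrix.diagonal_mul]
          ring
      rw [h5, h7]
      have h8 := rows_inj E Φ hK hΦ hdet (fun j => d j * y j)
      have h9 : ∑ j, (cD q K)⁻¹ * (d j * y j) ^ 2 ≤ ∑ a, (∑ j, Φ j a * (d j * y j)) ^ 2 := by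
        rw [← Finset.mul_sum, inv_mul_le_iff₀ hC0]
        exact h8
      refine le_trans ?_ (add_le_add le_rfl h9)
      rw [← Finset.sum_add_distrib]
      refine Finset.sum_le_sum fun j _ => ?_
      have hCi : (cD q K)⁻¹ ≤ 1 := inv_le_one_of_one_le₀ hC
      have hCi0 : 0 < (cD q K)⁻¹ := inv_pos.mpr hC0
      rcases le_total β (d j) with h10 | h10
      · rw [max_eq_right h10]
        have : 0 ≤ β ^ 2 * y j ^ 2 := by positivity
        have e2 : (cD q K)⁻¹ * (d j * y j) ^ 2 = (cD q K)⁻¹ * d j ^ 2 * y j ^ 2 := by ring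
        linarith
      · rw [max_eq_left h10]
        have h11 : (cD q K)⁻¹ * (β ^ 2 * y j ^ 2) ≤ 1 * (β ^ 2 * y j ^ 2) :=
          mul_le_mul_of_nonneg_right hCi (by positivity)
        have : 0 ≤ (cD q K)⁻¹ * (d j * y j) ^ 2 := by positivity
        linarith
    rw [hdd, inv_pow, inv_mul_le_iff₀ (pow_pos hC0 q)] at h6
    exact h6
  rw [e1]
  calc β ^ (2 * v) * ∏ j, max β (d j) ^ 2 ≤
        β ^ (2 * v) * (cD q K ^ q * (β ^ 2 • (1 : Matrix (Fin q) (Fin q) ℝ) + F * F.transpose).det) :=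
        mul_le_mul_of_nonneg_left h3 (by positivity)
    _ = _ := by ring

end

end Pool.Agent.Helper93.LVL
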